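import Pool.Agent.H53.GG.Fin2

/-!
# MP_619a4d_co: reduction of Q1 to geodetic graphs of diameter two

Q1 holds if and only if every finite graph without induced 4-cycles and diamonds is an induced subgraph
of a finite graph without a vertex adjacent to all others which is strongly regular with `μ = 1` or has
two degrees `k₁ > k₂` in the way described by `TwoDegrees` (the geodetic graphs of diameter two in
Stemple's classification). If Q1 holds, then for every `N` there is such a graph with a vertex in `N`
cliques of size `N + 1`, no two of which share a further vertex.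
-/

set_option autoImplicit false

namespace Pool.Agent.Results.MP_619a4d_co.DiameterTwo

open Pool.Agent.H53.GG

theorem result :
    (∀ (V : Type) [Finite V] (H : SimpleGraph V), C4DFree H →
      ∃ (V' : Type) (_ : Finite V') (H' : SimpleGraph V'), C4DFree H' ∧ Nonempty (H ↪g H') ∧
        ∀ (W : Type) [Finite W] (G : SimpleGraph W), Geodetic G → Nonempty (H' ↪g G) →
          ∃ S : Set W, Kind (G.induce S) ∧ Nonempty (H ↪g G.induce S)) ∧
    (QOne ↔ QKind) ∧
    (QOne → ∀ N : ℕ, ∃ (W : Type) (_ : Finite W) (G : SimpleGraph W), Kind G ∧
      ∃ (x : W) (f : Fin N × Fin N → W), Function.Injective f ∧ (∀ p, G.Adj x (f p)) ∧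
        ∀ p q, G.Adj (f p) (f q) ↔ p ≠ q ∧ p.1 = q.1) :=
  ⟨local_form, qone_iff, mills⟩

end Pool.Agent.Results.MP_619a4d_co.DiameterTwo
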