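import Pool.Agent.H47.GD.Main

/-!
# MP_619a4d_co: 2-degenerate graphs are induced subgraphs of geodetic graphs

Let `H` be a finite graph without induced 4-cycles and induced diamonds such that every nonempty set
`F` of vertices contains a vertex with at most two neighbours in `F`. Then `H` is an induced subgraph of
a finite geodetic graph of diameter at most 2: the polarity graph of a twisted field plane over a
field with `p ^ p` elements, `p` a large prime.
-/

set_option autoImplicit false

namespace Pool.Agent.Results.MP_619a4d_co.TwoDegenerate

open Pool.Agent.H53.GG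

theorem result (V : Type) [Finite V] (H : SimpleGraph V) (hH : C4DFree H)
    (h : ∀ F : Finset V, F.Nonempty → ∃ v ∈ F, dg H F v ≤ 2) :
    ∃ (W : Type) (_ : Finite W) (G : SimpleGraph W),
      Geodetic G ∧ (∀ u v, G.dist u v ≤ 2) ∧ Nonempty (H ↪g G) :=
  Pool.Agent.H47.GD.main2 H hH h

end Pool.Agent.Results.MP_619a4d_co.TwoDegenerate
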